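import Mathlib

/-!
Explicit matrices for the Hambleton-Teichner form L over Z[t, 1/t] (here over any commutative ring with
elements t, s, ts = 1): an isometry between L + H2 and I4 + H2.
-/

set_option autoImplicit false
set_option linter.unusedSimpArgs false

namespace Pool.Agent.U324.HT

open Matrix

variable {R : Type*} [CommRing R]


/-- The form L + H2. -/
def M6 (t s : R) : Matrix (Fin 6) (Fin 6) R :=
  !![s ^ 2 + s + 3 + t + t ^ 2, s ^ 2 + s + 2 + t + t ^ 2, -s ^ 2 - 2 - t ^ 2, -s ^ 2 - 2 - t ^ 2, 0, 0;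
    s ^ 2 + s + 2 + t + t ^ 2, s ^ 2 + s + 3 + t + t ^ 2, -s ^ 2 - 2 - t ^ 2, -s ^ 2 - 2 - t ^ 2, 0, 0;
    -s ^ 2 - 2 - t ^ 2, -s ^ 2 - 2 - t ^ 2, s ^ 2 - s + 3 - t + t ^ 2, s ^ 2 - s + 2 - t + t ^ 2, 0, 0;
    -s ^ 2 - 2 - t ^ 2, -s ^ 2 - 2 - t ^ 2, s ^ 2 - s + 2 - t + t ^ 2, s ^ 2 - s + 3 - t + t ^ 2, 0, 0;
    0, 0, 0, 0, 0, -1 + t;
    0, 0, 0, 0, s - 1, 0]

/-- The form I4 + H2. -/
def N6 (t s : R) : Matrix (Fin 6) (Fin 6) R :=
  !![1, 0, 0, 0, 0, 0;
    0, 1, 0, 0, 0, 0;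
    0, 0, 1, 0, 0, 0;
    0, 0, 0, 1, 0, 0;
    0, 0, 0, 0, 0, -1 + t;
    0, 0, 0, 0, s - 1, 0]

/-- The isometry. -/
def A6 (t s : R) : Matrix (Fin 6) (Fin 6) R :=
  !![3 * s ^ 2 - s - 2 + 3 * t - 4 * t ^ 2, 3 * s ^ 2 - s - 2 + 3 * t - 4 * t ^ 2, 5 * s ^ 2 - 2 * s - 3 + 5 * t - 6 * t ^ 2, 5 * s ^ 2 - 2 * s - 2 + 5 * t - 6 * t ^ 2, -6 * s ^ 2 + 2 * s + 3 - 6 * t + 7 * t ^ 2, -6 * s ^ 2 + 8 * s + 1 - 9 * t + 13 * t ^ 2 - 7 * t ^ 3;
    3 * s ^ 2 - s - 2 + 3 * t - 4 * t ^ 2, 3 * s ^ 2 - s - 2 + 3 * t - 4 * t ^ 2, 5 * s ^ 2 - 2 * s - 2 + 5 * t - 6 * t ^ 2, 5 * s ^ 2 - 2 * s - 3 + 5 * t - 6 * t ^ 2, -6 * s ^ 2 + 2 * s + 3 - 6 * t + 7 * t ^ 2, -6 * s ^ 2 + 8 * s + 1 - 9 * t + 13 * t ^ 2 - 7 * t ^ 3;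
    3 * s ^ 2 + 2 * s - 2 - t - 4 * t ^ 2, 3 * s ^ 2 + 2 * s - 1 - t - 4 * t ^ 2, 5 * s ^ 2 + 3 * s - 2 - t - 6 * t ^ 2, 5 * s ^ 2 + 3 * s - 2 - t - 6 * t ^ 2, -6 * s ^ 2 - 4 * s + 2 + t + 7 * t ^ 2, -6 * s ^ 2 + 2 * s + 6 - t + 6 * t ^ 2 - 7 * t ^ 3;
    3 * s ^ 2 + 2 * s - 1 - t - 4 * t ^ 2, 3 * s ^ 2 + 2 * s - 2 - t - 4 * t ^ 2, 5 * s ^ 2 + 3 * s - 2 - t - 6 * t ^ 2, 5 * s ^ 2 + 3 * s - 2 - t - 6 * t ^ 2, -6 * s ^ 2 - 4 * s + 2 + t + 7 * t ^ 2, -6 * s ^ 2 + 2 * s + 6 - t + 6 * t ^ 2 - 7 * t ^ 3;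
    -3 * s ^ 2 + s + 2, -3 * s ^ 2 + s + 2, -5 * s ^ 2 + 2 * s + 3, -5 * s ^ 2 + 2 * s + 3, 6 * s ^ 2 - 2 * s - 3, 6 * s ^ 2 - 8 * s - 2 + 4 * t;
    -3 * s ^ 2 - 2 * s, -3 * s ^ 2 - 2 * s, -5 * s ^ 2 - 3 * s, -5 * s ^ 2 - 3 * s, 6 * s ^ 2 + 4 * s, 6 * s ^ 2 - 2 * s - 3]

/-- Its inverse. -/
def B6 (t s : R) : Matrix (Fin 6) (Fin 6) R :=
  !![s ^ 2 + s - 3 * t, s ^ 2 + s - 3 * t, -s ^ 2 - 2 + 3 * t, -s ^ 2 - 1 + 3 * t, -2 - t + 3 * t ^ 2, -2 + t + 4 * t ^ 2 - 3 * t ^ 3;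
    s ^ 2 + s - 3 * t, s ^ 2 + s - 3 * t, -s ^ 2 - 1 + 3 * t, -s ^ 2 - 2 + 3 * t, -2 - t + 3 * t ^ 2, -2 + t + 4 * t ^ 2 - 3 * t ^ 3;
    3 * s ^ 2 + 2 * s + 1 - 5 * t, 3 * s ^ 2 + 2 * s + 2 - 5 * t, -3 * s ^ 2 + s - 4 + 5 * t, -3 * s ^ 2 + s - 4 + 5 * t, -3 - 2 * t + 5 * t ^ 2, -3 + t + 7 * t ^ 2 - 5 * t ^ 3;
    3 * s ^ 2 + 2 * s + 2 - 5 * t, 3 * s ^ 2 + 2 * s + 1 - 5 * t, -3 * s ^ 2 + s - 4 + 5 * t, -3 * s ^ 2 + s - 4 + 5 * t, -3 - 2 * t + 5 * t ^ 2, -3 + t + 7 * t ^ 2 - 5 * t ^ 3;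
    3 * s ^ 2 + 2 * s + 1 - 6 * t, 3 * s ^ 2 + 2 * s + 1 - 6 * t, -3 * s ^ 2 + s - 4 + 6 * t, -3 * s ^ 2 + s - 4 + 6 * t, -3 - 2 * t + 6 * t ^ 2, -4 + 2 * t + 8 * t ^ 2 - 6 * t ^ 3;
    3 * s ^ 2 + 5 * s + 6, 3 * s ^ 2 + 5 * s + 6, -3 * s ^ 2 - 2 * s - 6, -3 * s ^ 2 - 2 * s - 6, -4 - 6 * t, -3 - 2 * t + 6 * t ^ 2]

/-- The product of M6 and A6. -/
def W6 (t s : R) : Matrix (Fin 6) (Fin 6) R :=
  !![-3 * s + t + t ^ 2, -3 * s + t + t ^ 2, -5 * s + 1 + 2 * t + 3 * t ^ 2, -5 * s + 2 + 2 * t + 3 * t ^ 2, 6 * s - 1 - 2 * t - 3 * t ^ 2, 6 * s - 7 - t - t ^ 2 + 3 * t ^ 3;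
    -3 * s + t + t ^ 2, -3 * s + t + t ^ 2, -5 * s + 2 + 2 * t + 3 * t ^ 2, -5 * s + 1 + 2 * t + 3 * t ^ 2, 6 * s - 1 - 2 * t - 3 * t ^ 2, 6 * s - 7 - t - t ^ 2 + 3 * t ^ 3;
    3 * s - 2 - t ^ 2, 3 * s - 1 - t ^ 2, 5 * s - 4 + t - 3 * t ^ 2, 5 * s - 4 + t - 3 * t ^ 2, -6 * s + 4 - t + 3 * t ^ 2, -6 * s + 10 - 5 * t + 4 * t ^ 2 - 3 * t ^ 3;
    3 * s - 1 - t ^ 2, 3 * s - 2 - t ^ 2, 5 * s - 4 + t - 3 * t ^ 2, 5 * s - 4 + t - 3 * t ^ 2, -6 * s + 4 - t + 3 * t ^ 2, -6 * s + 10 - 5 * t + 4 * t ^ 2 - 3 * t ^ 3;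
    3 * s ^ 2 - s - 2, 3 * s ^ 2 - s - 2, 5 * s ^ 2 - 2 * s - 3, 5 * s ^ 2 - 2 * s - 3, -6 * s ^ 2 + 2 * s + 4, -6 * s ^ 2 + 8 * s + 1 - 3 * t;
    -3 * s ^ 3 + 4 * s ^ 2 + s - 2, -3 * s ^ 3 + 4 * s ^ 2 + s - 2, -5 * s ^ 3 + 7 * s ^ 2 + s - 3, -5 * s ^ 3 + 7 * s ^ 2 + s - 3, 6 * s ^ 3 - 8 * s ^ 2 - s + 3, 6 * s ^ 3 - 14 * s ^ 2 + 6 * s + 6 - 4 * t]

theorem mul_MA (t s : R) (h : t * s = 1) : M6 t s * A6 t s = W6 t s := by
  ext i j
  fin_cases i
  · fin_cases j
    · simp only [M6, A6, W6, Matrix.mul_apply, Fin.sum_univ_six, Matrix.of_apply, Matrix.cons_val, Matrix.transpose_apply, Fin.zero_eta, Fin.mk_one, Fin.reduceFinMk, Fin.isValue]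
      linear_combination (4 + 14 * s - 14 * t) * h
    · simp only [M6, A6, W6, Matrix.mul_apply, Fin.sum_univ_six, Matrix.of_apply, Matrix.cons_val, Matrix.transpose_apply, Fin.zero_eta, Fin.mk_one, Fin.reduceFinMk, Fin.isValue]
      linear_combination (4 + 14 * s - 14 * t) * h
    · simp only [M6, A6, W6, Matrix.mul_apply, Fin.sum_univ_six, Matrix.of_apply, Matrix.cons_val, Matrix.transpose_apply, Fin.zero_eta, Fin.mk_one, Fin.reduceFinMk, Fin.isValue]
      linear_combination (6 + 22 * s - 22 * t) * h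
    · simp only [M6, A6, W6, Matrix.mul_apply, Fin.sum_univ_six, Matrix.of_apply, Matrix.cons_val, Matrix.transpose_apply, Fin.zero_eta, Fin.mk_one, Fin.reduceFinMk, Fin.isValue]
      linear_combination (6 + 22 * s - 22 * t) * h
    · simp only [M6, A6, W6, Matrix.mul_apply, Fin.sum_univ_six, Matrix.of_apply, Matrix.cons_val, Matrix.transpose_apply, Fin.zero_eta, Fin.mk_one, Fin.reduceFinMk, Fin.isValue]
      linear_combination (-8 - 26 * s + 26 * t) * h
    · simp only [M6, A6, W6, Matrix.mul_apply, Fin.sum_univ_six, Matrix.of_apply, Matrix.cons_val, Matrix.transpose_apply, Fin.zero_eta, Fin.mk_one, Fin.reduceFinMk, Fin.isValue]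
      linear_combination (12 - 28 * s + 38 * t + 14 * t * s - 14 * t ^ 2) * h
  · fin_cases j
    · simp only [M6, A6, W6, Matrix.mul_apply, Fin.sum_univ_six, Matrix.of_apply, Matrix.cons_val, Matrix.transpose_apply, Fin.zero_eta, Fin.mk_one, Fin.reduceFinMk, Fin.isValue]
      linear_combination (4 + 14 * s - 14 * t) * h
    · simp only [M6, A6, W6, Matrix.mul_apply, Fin.sum_univ_six, Matrix.of_apply, Matrix.cons_val, Matrix.transpose_apply, Fin.zero_eta, Fin.mk_one, Fin.reduceFinMk, Fin.isValue]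
      linear_combination (4 + 14 * s - 14 * t) * h
    · simp only [M6, A6, W6, Matrix.mul_apply, Fin.sum_univ_six, Matrix.of_apply, Matrix.cons_val, Matrix.transpose_apply, Fin.zero_eta, Fin.mk_one, Fin.reduceFinMk, Fin.isValue]
      linear_combination (6 + 22 * s - 22 * t) * h
    · simp only [M6, A6, W6, Matrix.mul_apply, Fin.sum_univ_six, Matrix.of_apply, Matrix.cons_val, Matrix.transpose_apply, Fin.zero_eta, Fin.mk_one, Fin.reduceFinMk, Fin.isValue]
      linear_combination (6 + 22 * s - 22 * t) * h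
    · simp only [M6, A6, W6, Matrix.mul_apply, Fin.sum_univ_six, Matrix.of_apply, Matrix.cons_val, Matrix.transpose_apply, Fin.zero_eta, Fin.mk_one, Fin.reduceFinMk, Fin.isValue]
      linear_combination (-8 - 26 * s + 26 * t) * h
    · simp only [M6, A6, W6, Matrix.mul_apply, Fin.sum_univ_six, Matrix.of_apply, Matrix.cons_val, Matrix.transpose_apply, Fin.zero_eta, Fin.mk_one, Fin.reduceFinMk, Fin.isValue]
      linear_combination (12 - 28 * s + 38 * t + 14 * t * s - 14 * t ^ 2) * h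
  · fin_cases j
    · simp only [M6, A6, W6, Matrix.mul_apply, Fin.sum_univ_six, Matrix.of_apply, Matrix.cons_val, Matrix.transpose_apply, Fin.zero_eta, Fin.mk_one, Fin.reduceFinMk, Fin.isValue]
      linear_combination (-2 - 14 * s + 14 * t) * h
    · simp only [M6, A6, W6, Matrix.mul_apply, Fin.sum_univ_six, Matrix.of_apply, Matrix.cons_val, Matrix.transpose_apply, Fin.zero_eta, Fin.mk_one, Fin.reduceFinMk, Fin.isValue]
      linear_combination (-2 - 14 * s + 14 * t) * h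
    · simp only [M6, A6, W6, Matrix.mul_apply, Fin.sum_univ_six, Matrix.of_apply, Matrix.cons_val, Matrix.transpose_apply, Fin.zero_eta, Fin.mk_one, Fin.reduceFinMk, Fin.isValue]
      linear_combination (-4 - 22 * s + 22 * t) * h
    · simp only [M6, A6, W6, Matrix.mul_apply, Fin.sum_univ_six, Matrix.of_apply, Matrix.cons_val, Matrix.transpose_apply, Fin.zero_eta, Fin.mk_one, Fin.reduceFinMk, Fin.isValue]
      linear_combination (-4 - 22 * s + 22 * t) * h
    · simp only [M6, A6, W6, Matrix.mul_apply, Fin.sum_univ_six, Matrix.of_apply, Matrix.cons_val, Matrix.transpose_apply, Fin.zero_eta, Fin.mk_one, Fin.reduceFinMk, Fin.isValue]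
      linear_combination (6 + 26 * s - 26 * t) * h
    · simp only [M6, A6, W6, Matrix.mul_apply, Fin.sum_univ_six, Matrix.of_apply, Matrix.cons_val, Matrix.transpose_apply, Fin.zero_eta, Fin.mk_one, Fin.reduceFinMk, Fin.isValue]
      linear_combination (-16 + 28 * s - 24 * t - 14 * t * s + 14 * t ^ 2) * h
  · fin_cases j
    · simp only [M6, A6, W6, Matrix.mul_apply, Fin.sum_univ_six, Matrix.of_apply, Matrix.cons_val, Matrix.transpose_apply, Fin.zero_eta, Fin.mk_one, Fin.reduceFinMk, Fin.isValue]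
      linear_combination (-2 - 14 * s + 14 * t) * h
    · simp only [M6, A6, W6, Matrix.mul_apply, Fin.sum_univ_six, Matrix.of_apply, Matrix.cons_val, Matrix.transpose_apply, Fin.zero_eta, Fin.mk_one, Fin.reduceFinMk, Fin.isValue]
      linear_combination (-2 - 14 * s + 14 * t) * h
    · simp only [M6, A6, W6, Matrix.mul_apply, Fin.sum_univ_six, Matrix.of_apply, Matrix.cons_val, Matrix.transpose_apply, Fin.zero_eta, Fin.mk_one, Fin.reduceFinMk, Fin.isValue]
      linear_combination (-4 - 22 * s + 22 * t) * h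
    · simp only [M6, A6, W6, Matrix.mul_apply, Fin.sum_univ_six, Matrix.of_apply, Matrix.cons_val, Matrix.transpose_apply, Fin.zero_eta, Fin.mk_one, Fin.reduceFinMk, Fin.isValue]
      linear_combination (-4 - 22 * s + 22 * t) * h
    · simp only [M6, A6, W6, Matrix.mul_apply, Fin.sum_univ_six, Matrix.of_apply, Matrix.cons_val, Matrix.transpose_apply, Fin.zero_eta, Fin.mk_one, Fin.reduceFinMk, Fin.isValue]
      linear_combination (6 + 26 * s - 26 * t) * h
    · simp only [M6, A6, W6, Matrix.mul_apply, Fin.sum_univ_six, Matrix.of_apply, Matrix.cons_val, Matrix.transpose_apply, Fin.zero_eta, Fin.mk_one, Fin.reduceFinMk, Fin.isValue]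
      linear_combination (-16 + 28 * s - 24 * t - 14 * t * s + 14 * t ^ 2) * h
  · fin_cases j
    · simp only [M6, A6, W6, Matrix.mul_apply, Fin.sum_univ_six, Matrix.of_apply, Matrix.cons_val, Matrix.transpose_apply, Fin.zero_eta, Fin.mk_one, Fin.reduceFinMk, Fin.isValue]
      linear_combination (-2 - 3 * s) * h
    · simp only [M6, A6, W6, Matrix.mul_apply, Fin.sum_univ_six, Matrix.of_apply, Matrix.cons_val, Matrix.transpose_apply, Fin.zero_eta, Fin.mk_one, Fin.reduceFinMk, Fin.isValue]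
      linear_combination (-2 - 3 * s) * h
    · simp only [M6, A6, W6, Matrix.mul_apply, Fin.sum_univ_six, Matrix.of_apply, Matrix.cons_val, Matrix.transpose_apply, Fin.zero_eta, Fin.mk_one, Fin.reduceFinMk, Fin.isValue]
      linear_combination (-3 - 5 * s) * h
    · simp only [M6, A6, W6, Matrix.mul_apply, Fin.sum_univ_six, Matrix.of_apply, Matrix.cons_val, Matrix.transpose_apply, Fin.zero_eta, Fin.mk_one, Fin.reduceFinMk, Fin.isValue]
      linear_combination (-3 - 5 * s) * h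
    · simp only [M6, A6, W6, Matrix.mul_apply, Fin.sum_univ_six, Matrix.of_apply, Matrix.cons_val, Matrix.transpose_apply, Fin.zero_eta, Fin.mk_one, Fin.reduceFinMk, Fin.isValue]
      linear_combination (4 + 6 * s) * h
    · simp only [M6, A6, W6, Matrix.mul_apply, Fin.sum_univ_six, Matrix.of_apply, Matrix.cons_val, Matrix.transpose_apply, Fin.zero_eta, Fin.mk_one, Fin.reduceFinMk, Fin.isValue]
      linear_combination (-2 + 6 * s) * h
  · fin_cases j
    · simp only [M6, A6, W6, Matrix.mul_apply, Fin.sum_univ_six, Matrix.of_apply, Matrix.cons_val, Matrix.transpose_apply, Fin.zero_eta, Fin.mk_one, Fin.reduceFinMk, Fin.isValue]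
      linear_combination (0) * h
    · simp only [M6, A6, W6, Matrix.mul_apply, Fin.sum_univ_six, Matrix.of_apply, Matrix.cons_val, Matrix.transpose_apply, Fin.zero_eta, Fin.mk_one, Fin.reduceFinMk, Fin.isValue]
      linear_combination (0) * h
    · simp only [M6, A6, W6, Matrix.mul_apply, Fin.sum_univ_six, Matrix.of_apply, Matrix.cons_val, Matrix.transpose_apply, Fin.zero_eta, Fin.mk_one, Fin.reduceFinMk, Fin.isValue]
      linear_combination (0) * h
    · simp only [M6, A6, W6, Matrix.mul_apply, Fin.sum_univ_six, Matrix.of_apply, Matrix.cons_val, Matrix.transpose_apply, Fin.zero_eta, Fin.mk_one, Fin.reduceFinMk, Fin.isValue]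
      linear_combination (0) * h
    · simp only [M6, A6, W6, Matrix.mul_apply, Fin.sum_univ_six, Matrix.of_apply, Matrix.cons_val, Matrix.transpose_apply, Fin.zero_eta, Fin.mk_one, Fin.reduceFinMk, Fin.isValue]
      linear_combination (0) * h
    · simp only [M6, A6, W6, Matrix.mul_apply, Fin.sum_univ_six, Matrix.of_apply, Matrix.cons_val, Matrix.transpose_apply, Fin.zero_eta, Fin.mk_one, Fin.reduceFinMk, Fin.isValue]
      linear_combination (4) * h

theorem mul_AW (t s : R) (h : t * s = 1) : (A6 s t)ᵀ * W6 t s = N6 t s := by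
  ext i j
  fin_cases i
  · fin_cases j
    · simp only [A6, W6, N6, Matrix.mul_apply, Fin.sum_univ_six, Matrix.of_apply, Matrix.cons_val, Matrix.transpose_apply, Fin.zero_eta, Fin.mk_one, Fin.reduceFinMk, Fin.isValue]
      linear_combination (-4 * s + 6 * s ^ 2 + 8 * t - 21 * t * s + 9 * t * s ^ 2) * h
    · simp only [A6, W6, N6, Matrix.mul_apply, Fin.sum_univ_six, Matrix.of_apply, Matrix.cons_val, Matrix.transpose_apply, Fin.zero_eta, Fin.mk_one, Fin.reduceFinMk, Fin.isValue]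
      linear_combination (-4 * s + 6 * s ^ 2 + 8 * t - 21 * t * s + 9 * t * s ^ 2) * h
    · simp only [A6, W6, N6, Matrix.mul_apply, Fin.sum_univ_six, Matrix.of_apply, Matrix.cons_val, Matrix.transpose_apply, Fin.zero_eta, Fin.mk_one, Fin.reduceFinMk, Fin.isValue]
      linear_combination (-18 * s + 10 * s ^ 2 + 27 * t - 36 * t * s + 15 * t * s ^ 2) * h
    · simp only [A6, W6, N6, Matrix.mul_apply, Fin.sum_univ_six, Matrix.of_apply, Matrix.cons_val, Matrix.transpose_apply, Fin.zero_eta, Fin.mk_one, Fin.reduceFinMk, Fin.isValue]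
      linear_combination (-18 * s + 10 * s ^ 2 + 27 * t - 36 * t * s + 15 * t * s ^ 2) * h
    · simp only [A6, W6, N6, Matrix.mul_apply, Fin.sum_univ_six, Matrix.of_apply, Matrix.cons_val, Matrix.transpose_apply, Fin.zero_eta, Fin.mk_one, Fin.reduceFinMk, Fin.isValue]
      linear_combination (16 * s - 12 * s ^ 2 - 27 * t + 42 * t * s - 18 * t * s ^ 2) * h
    · simp only [A6, W6, N6, Matrix.mul_apply, Fin.sum_univ_six, Matrix.of_apply, Matrix.cons_val, Matrix.transpose_apply, Fin.zero_eta, Fin.mk_one, Fin.reduceFinMk, Fin.isValue]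
      linear_combination (52 * s - 12 * s ^ 2 - 56 * t + 36 * t * s - 18 * t * s ^ 2 + 24 * t ^ 2) * h
  · fin_cases j
    · simp only [A6, W6, N6, Matrix.mul_apply, Fin.sum_univ_six, Matrix.of_apply, Matrix.cons_val, Matrix.transpose_apply, Fin.zero_eta, Fin.mk_one, Fin.reduceFinMk, Fin.isValue]
      linear_combination (-4 * s + 6 * s ^ 2 + 8 * t - 21 * t * s + 9 * t * s ^ 2) * h
    · simp only [A6, W6, N6, Matrix.mul_apply, Fin.sum_univ_six, Matrix.of_apply, Matrix.cons_val, Matrix.transpose_apply, Fin.zero_eta, Fin.mk_one, Fin.reduceFinMk, Fin.isValue]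
      linear_combination (-4 * s + 6 * s ^ 2 + 8 * t - 21 * t * s + 9 * t * s ^ 2) * h
    · simp only [A6, W6, N6, Matrix.mul_apply, Fin.sum_univ_six, Matrix.of_apply, Matrix.cons_val, Matrix.transpose_apply, Fin.zero_eta, Fin.mk_one, Fin.reduceFinMk, Fin.isValue]
      linear_combination (-18 * s + 10 * s ^ 2 + 27 * t - 36 * t * s + 15 * t * s ^ 2) * h
    · simp only [A6, W6, N6, Matrix.mul_apply, Fin.sum_univ_six, Matrix.of_apply, Matrix.cons_val, Matrix.transpose_apply, Fin.zero_eta, Fin.mk_one, Fin.reduceFinMk, Fin.isValue]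
      linear_combination (-18 * s + 10 * s ^ 2 + 27 * t - 36 * t * s + 15 * t * s ^ 2) * h
    · simp only [A6, W6, N6, Matrix.mul_apply, Fin.sum_univ_six, Matrix.of_apply, Matrix.cons_val, Matrix.transpose_apply, Fin.zero_eta, Fin.mk_one, Fin.reduceFinMk, Fin.isValue]
      linear_combination (16 * s - 12 * s ^ 2 - 27 * t + 42 * t * s - 18 * t * s ^ 2) * h
    · simp only [A6, W6, N6, Matrix.mul_apply, Fin.sum_univ_six, Matrix.of_apply, Matrix.cons_val, Matrix.transpose_apply, Fin.zero_eta, Fin.mk_one, Fin.reduceFinMk, Fin.isValue]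
      linear_combination (52 * s - 12 * s ^ 2 - 56 * t + 36 * t * s - 18 * t * s ^ 2 + 24 * t ^ 2) * h
  · fin_cases j
    · simp only [A6, W6, N6, Matrix.mul_apply, Fin.sum_univ_six, Matrix.of_apply, Matrix.cons_val, Matrix.transpose_apply, Fin.zero_eta, Fin.mk_one, Fin.reduceFinMk, Fin.isValue]
      linear_combination (-3 * s + 9 * s ^ 2 + 12 * t - 35 * t * s + 15 * t * s ^ 2) * h
    · simp only [A6, W6, N6, Matrix.mul_apply, Fin.sum_univ_six, Matrix.of_apply, Matrix.cons_val, Matrix.transpose_apply, Fin.zero_eta, Fin.mk_one, Fin.reduceFinMk, Fin.isValue]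
      linear_combination (-3 * s + 9 * s ^ 2 + 12 * t - 35 * t * s + 15 * t * s ^ 2) * h
    · simp only [A6, W6, N6, Matrix.mul_apply, Fin.sum_univ_six, Matrix.of_apply, Matrix.cons_val, Matrix.transpose_apply, Fin.zero_eta, Fin.mk_one, Fin.reduceFinMk, Fin.isValue]
      linear_combination (1 - 22 * s + 15 * s ^ 2 + 41 * t - 60 * t * s + 25 * t * s ^ 2) * h
    · simp only [A6, W6, N6, Matrix.mul_apply, Fin.sum_univ_six, Matrix.of_apply, Matrix.cons_val, Matrix.transpose_apply, Fin.zero_eta, Fin.mk_one, Fin.reduceFinMk, Fin.isValue]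
      linear_combination (1 - 22 * s + 15 * s ^ 2 + 41 * t - 60 * t * s + 25 * t * s ^ 2) * h
    · simp only [A6, W6, N6, Matrix.mul_apply, Fin.sum_univ_six, Matrix.of_apply, Matrix.cons_val, Matrix.transpose_apply, Fin.zero_eta, Fin.mk_one, Fin.reduceFinMk, Fin.isValue]
      linear_combination (-1 + 18 * s - 18 * s ^ 2 - 41 * t + 70 * t * s - 30 * t * s ^ 2) * h
    · simp only [A6, W6, N6, Matrix.mul_apply, Fin.sum_univ_six, Matrix.of_apply, Matrix.cons_val, Matrix.transpose_apply, Fin.zero_eta, Fin.mk_one, Fin.reduceFinMk, Fin.isValue]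
      linear_combination (2 + 72 * s - 18 * s ^ 2 - 88 * t + 64 * t * s - 30 * t * s ^ 2 + 36 * t ^ 2) * h
  · fin_cases j
    · simp only [A6, W6, N6, Matrix.mul_apply, Fin.sum_univ_six, Matrix.of_apply, Matrix.cons_val, Matrix.transpose_apply, Fin.zero_eta, Fin.mk_one, Fin.reduceFinMk, Fin.isValue]
      linear_combination (-3 * s + 9 * s ^ 2 + 12 * t - 35 * t * s + 15 * t * s ^ 2) * h
    · simp only [A6, W6, N6, Matrix.mul_apply, Fin.sum_univ_six, Matrix.of_apply, Matrix.cons_val, Matrix.transpose_apply, Fin.zero_eta, Fin.mk_one, Fin.reduceFinMk, Fin.isValue]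
      linear_combination (-3 * s + 9 * s ^ 2 + 12 * t - 35 * t * s + 15 * t * s ^ 2) * h
    · simp only [A6, W6, N6, Matrix.mul_apply, Fin.sum_univ_six, Matrix.of_apply, Matrix.cons_val, Matrix.transpose_apply, Fin.zero_eta, Fin.mk_one, Fin.reduceFinMk, Fin.isValue]
      linear_combination (1 - 22 * s + 15 * s ^ 2 + 41 * t - 60 * t * s + 25 * t * s ^ 2) * h
    · simp only [A6, W6, N6, Matrix.mul_apply, Fin.sum_univ_six, Matrix.of_apply, Matrix.cons_val, Matrix.transpose_apply, Fin.zero_eta, Fin.mk_one, Fin.reduceFinMk, Fin.isValue]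
      linear_combination (1 - 22 * s + 15 * s ^ 2 + 41 * t - 60 * t * s + 25 * t * s ^ 2) * h
    · simp only [A6, W6, N6, Matrix.mul_apply, Fin.sum_univ_six, Matrix.of_apply, Matrix.cons_val, Matrix.transpose_apply, Fin.zero_eta, Fin.mk_one, Fin.reduceFinMk, Fin.isValue]
      linear_combination (-1 + 18 * s - 18 * s ^ 2 - 41 * t + 70 * t * s - 30 * t * s ^ 2) * h
    · simp only [A6, W6, N6, Matrix.mul_apply, Fin.sum_univ_six, Matrix.of_apply, Matrix.cons_val, Matrix.transpose_apply, Fin.zero_eta, Fin.mk_one, Fin.reduceFinMk, Fin.isValue]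
      linear_combination (2 + 72 * s - 18 * s ^ 2 - 88 * t + 64 * t * s - 30 * t * s ^ 2 + 36 * t ^ 2) * h
  · fin_cases j
    · simp only [A6, W6, N6, Matrix.mul_apply, Fin.sum_univ_six, Matrix.of_apply, Matrix.cons_val, Matrix.transpose_apply, Fin.zero_eta, Fin.mk_one, Fin.reduceFinMk, Fin.isValue]
      linear_combination (6 * s - 12 * s ^ 2 - 14 * t + 42 * t * s - 18 * t * s ^ 2) * h
    · simp only [A6, W6, N6, Matrix.mul_apply, Fin.sum_univ_six, Matrix.of_apply, Matrix.cons_val, Matrix.transpose_apply, Fin.zero_eta, Fin.mk_one, Fin.reduceFinMk, Fin.isValue]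
      linear_combination (6 * s - 12 * s ^ 2 - 14 * t + 42 * t * s - 18 * t * s ^ 2) * h
    · simp only [A6, W6, N6, Matrix.mul_apply, Fin.sum_univ_six, Matrix.of_apply, Matrix.cons_val, Matrix.transpose_apply, Fin.zero_eta, Fin.mk_one, Fin.reduceFinMk, Fin.isValue]
      linear_combination (-2 + 30 * s - 20 * s ^ 2 - 48 * t + 72 * t * s - 30 * t * s ^ 2) * h
    · simp only [A6, W6, N6, Matrix.mul_apply, Fin.sum_univ_six, Matrix.of_apply, Matrix.cons_val, Matrix.transpose_apply, Fin.zero_eta, Fin.mk_one, Fin.reduceFinMk, Fin.isValue]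
      linear_combination (-2 + 30 * s - 20 * s ^ 2 - 48 * t + 72 * t * s - 30 * t * s ^ 2) * h
    · simp only [A6, W6, N6, Matrix.mul_apply, Fin.sum_univ_six, Matrix.of_apply, Matrix.cons_val, Matrix.transpose_apply, Fin.zero_eta, Fin.mk_one, Fin.reduceFinMk, Fin.isValue]
      linear_combination (2 - 26 * s + 24 * s ^ 2 + 48 * t - 84 * t * s + 36 * t * s ^ 2) * h
    · simp only [A6, W6, N6, Matrix.mul_apply, Fin.sum_univ_six, Matrix.of_apply, Matrix.cons_val, Matrix.transpose_apply, Fin.zero_eta, Fin.mk_one, Fin.reduceFinMk, Fin.isValue]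
      linear_combination (4 - 92 * s + 24 * s ^ 2 + 104 * t - 78 * t * s + 36 * t * s ^ 2 - 42 * t ^ 2) * h
  · fin_cases j
    · simp only [A6, W6, N6, Matrix.mul_apply, Fin.sum_univ_six, Matrix.of_apply, Matrix.cons_val, Matrix.transpose_apply, Fin.zero_eta, Fin.mk_one, Fin.reduceFinMk, Fin.isValue]
      linear_combination (8 - 24 * s - 8 * s ^ 2 - 16 * t + 56 * t * s - 18 * t * s ^ 2) * h
    · simp only [A6, W6, N6, Matrix.mul_apply, Fin.sum_univ_six, Matrix.of_apply, Matrix.cons_val, Matrix.transpose_apply, Fin.zero_eta, Fin.mk_one, Fin.reduceFinMk, Fin.isValue]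
      linear_combination (8 - 24 * s - 8 * s ^ 2 - 16 * t + 56 * t * s - 18 * t * s ^ 2) * h
    · simp only [A6, W6, N6, Matrix.mul_apply, Fin.sum_univ_six, Matrix.of_apply, Matrix.cons_val, Matrix.transpose_apply, Fin.zero_eta, Fin.mk_one, Fin.reduceFinMk, Fin.isValue]
      linear_combination (30 - 20 * s - 32 * s ^ 2 - 54 * t + 114 * t * s - 30 * t * s ^ 2) * h
    · simp only [A6, W6, N6, Matrix.mul_apply, Fin.sum_univ_six, Matrix.of_apply, Matrix.cons_val, Matrix.transpose_apply, Fin.zero_eta, Fin.mk_one, Fin.reduceFinMk, Fin.isValue]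
      linear_combination (30 - 20 * s - 32 * s ^ 2 - 54 * t + 114 * t * s - 30 * t * s ^ 2) * h
    · simp only [A6, W6, N6, Matrix.mul_apply, Fin.sum_univ_six, Matrix.of_apply, Matrix.cons_val, Matrix.transpose_apply, Fin.zero_eta, Fin.mk_one, Fin.reduceFinMk, Fin.isValue]
      linear_combination (-30 + 36 * s + 30 * s ^ 2 + 54 * t - 126 * t * s + 36 * t * s ^ 2) * h
    · simp only [A6, W6, N6, Matrix.mul_apply, Fin.sum_univ_six, Matrix.of_apply, Matrix.cons_val, Matrix.transpose_apply, Fin.zero_eta, Fin.mk_one, Fin.reduceFinMk, Fin.isValue]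
      linear_combination (-86 - 16 * s + 72 * s ^ 2 + 136 * t - 98 * t * s - 6 * t * s ^ 2 - 48 * t ^ 2 + 42 * t ^ 2 * s) * h

/-- The identity as a literal. -/
def E6 (R : Type*) [CommRing R] : Matrix (Fin 6) (Fin 6) R :=
  !![1, 0, 0, 0, 0, 0;
    0, 1, 0, 0, 0, 0;
    0, 0, 1, 0, 0, 0;
    0, 0, 0, 1, 0, 0;
    0, 0, 0, 0, 1, 0;
    0, 0, 0, 0, 0, 1]

theorem E6_eq : E6 R = 1 := by
  ext i j
  fin_cases i <;> fin_cases j <;> simp [E6]

theorem mul_AB (t s : R) (h : t * s = 1) : A6 t s * B6 t s = E6 R := by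
  ext i j
  fin_cases i
  · fin_cases j
    · simp only [A6, B6, E6, Matrix.mul_apply, Fin.sum_univ_six, Matrix.of_apply, Matrix.cons_val, Matrix.transpose_apply, Fin.zero_eta, Fin.mk_one, Fin.reduceFinMk, Fin.isValue]
      linear_combination (-1 - 41 * s + 26 * t + 16 * t * s - 35 * t ^ 2 - 21 * t ^ 2 * s) * h
    · simp only [A6, B6, E6, Matrix.mul_apply, Fin.sum_univ_six, Matrix.of_apply, Matrix.cons_val, Matrix.transpose_apply, Fin.zero_eta, Fin.mk_one, Fin.reduceFinMk, Fin.isValue]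
      linear_combination (-1 - 41 * s + 26 * t + 16 * t * s - 35 * t ^ 2 - 21 * t ^ 2 * s) * h
    · simp only [A6, B6, E6, Matrix.mul_apply, Fin.sum_univ_six, Matrix.of_apply, Matrix.cons_val, Matrix.transpose_apply, Fin.zero_eta, Fin.mk_one, Fin.reduceFinMk, Fin.isValue]
      linear_combination (-8 + 41 * s - 10 * t - 16 * t * s + 14 * t ^ 2 + 21 * t ^ 2 * s) * h
    · simp only [A6, B6, E6, Matrix.mul_apply, Fin.sum_univ_six, Matrix.of_apply, Matrix.cons_val, Matrix.transpose_apply, Fin.zero_eta, Fin.mk_one, Fin.reduceFinMk, Fin.isValue]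
      linear_combination (-8 + 41 * s - 10 * t - 16 * t * s + 14 * t ^ 2 + 21 * t ^ 2 * s) * h
    · simp only [A6, B6, E6, Matrix.mul_apply, Fin.sum_univ_six, Matrix.of_apply, Matrix.cons_val, Matrix.transpose_apply, Fin.zero_eta, Fin.mk_one, Fin.reduceFinMk, Fin.isValue]
      linear_combination (-10 + 22 * s - 14 * t + 32 * t * s) * h
    · simp only [A6, B6, E6, Matrix.mul_apply, Fin.sum_univ_six, Matrix.of_apply, Matrix.cons_val, Matrix.transpose_apply, Fin.zero_eta, Fin.mk_one, Fin.reduceFinMk, Fin.isValue]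
      linear_combination (-8 + 16 * s - 4 * t + 10 * t * s + 14 * t ^ 2 - 32 * t ^ 2 * s) * h
  · fin_cases j
    · simp only [A6, B6, E6, Matrix.mul_apply, Fin.sum_univ_six, Matrix.of_apply, Matrix.cons_val, Matrix.transpose_apply, Fin.zero_eta, Fin.mk_one, Fin.reduceFinMk, Fin.isValue]
      linear_combination (-1 - 41 * s + 26 * t + 16 * t * s - 35 * t ^ 2 - 21 * t ^ 2 * s) * h
    · simp only [A6, B6, E6, Matrix.mul_apply, Fin.sum_univ_six, Matrix.of_apply, Matrix.cons_val, Matrix.transpose_apply, Fin.zero_eta, Fin.mk_one, Fin.reduceFinMk, Fin.isValue]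
      linear_combination (-1 - 41 * s + 26 * t + 16 * t * s - 35 * t ^ 2 - 21 * t ^ 2 * s) * h
    · simp only [A6, B6, E6, Matrix.mul_apply, Fin.sum_univ_six, Matrix.of_apply, Matrix.cons_val, Matrix.transpose_apply, Fin.zero_eta, Fin.mk_one, Fin.reduceFinMk, Fin.isValue]
      linear_combination (-8 + 41 * s - 10 * t - 16 * t * s + 14 * t ^ 2 + 21 * t ^ 2 * s) * h
    · simp only [A6, B6, E6, Matrix.mul_apply, Fin.sum_univ_six, Matrix.of_apply, Matrix.cons_val, Matrix.transpose_apply, Fin.zero_eta, Fin.mk_one, Fin.reduceFinMk, Fin.isValue]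
      linear_combination (-8 + 41 * s - 10 * t - 16 * t * s + 14 * t ^ 2 + 21 * t ^ 2 * s) * h
    · simp only [A6, B6, E6, Matrix.mul_apply, Fin.sum_univ_six, Matrix.of_apply, Matrix.cons_val, Matrix.transpose_apply, Fin.zero_eta, Fin.mk_one, Fin.reduceFinMk, Fin.isValue]
      linear_combination (-10 + 22 * s - 14 * t + 32 * t * s) * h
    · simp only [A6, B6, E6, Matrix.mul_apply, Fin.sum_univ_six, Matrix.of_apply, Matrix.cons_val, Matrix.transpose_apply, Fin.zero_eta, Fin.mk_one, Fin.reduceFinMk, Fin.isValue]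
      linear_combination (-8 + 16 * s - 4 * t + 10 * t * s + 14 * t ^ 2 - 32 * t ^ 2 * s) * h
  · fin_cases j
    · simp only [A6, B6, E6, Matrix.mul_apply, Fin.sum_univ_six, Matrix.of_apply, Matrix.cons_val, Matrix.transpose_apply, Fin.zero_eta, Fin.mk_one, Fin.reduceFinMk, Fin.isValue]
      linear_combination (-32 - 40 * s - 9 * t - 5 * t * s - 35 * t ^ 2 - 21 * t ^ 2 * s) * h
    · simp only [A6, B6, E6, Matrix.mul_apply, Fin.sum_univ_six, Matrix.of_apply, Matrix.cons_val, Matrix.transpose_apply, Fin.zero_eta, Fin.mk_one, Fin.reduceFinMk, Fin.isValue]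
      linear_combination (-32 - 40 * s - 9 * t - 5 * t * s - 35 * t ^ 2 - 21 * t ^ 2 * s) * h
    · simp only [A6, B6, E6, Matrix.mul_apply, Fin.sum_univ_six, Matrix.of_apply, Matrix.cons_val, Matrix.transpose_apply, Fin.zero_eta, Fin.mk_one, Fin.reduceFinMk, Fin.isValue]
      linear_combination (24 + 40 * s + 4 * t + 5 * t * s + 14 * t ^ 2 + 21 * t ^ 2 * s) * h
    · simp only [A6, B6, E6, Matrix.mul_apply, Fin.sum_univ_six, Matrix.of_apply, Matrix.cons_val, Matrix.transpose_apply, Fin.zero_eta, Fin.mk_one, Fin.reduceFinMk, Fin.isValue]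
      linear_combination (24 + 40 * s + 4 * t + 5 * t * s + 14 * t ^ 2 + 21 * t ^ 2 * s) * h
    · simp only [A6, B6, E6, Matrix.mul_apply, Fin.sum_univ_six, Matrix.of_apply, Matrix.cons_val, Matrix.transpose_apply, Fin.zero_eta, Fin.mk_one, Fin.reduceFinMk, Fin.isValue]
      linear_combination (12 + 22 * s + 18 * t + 32 * t * s) * h
    · simp only [A6, B6, E6, Matrix.mul_apply, Fin.sum_univ_six, Matrix.of_apply, Matrix.cons_val, Matrix.transpose_apply, Fin.zero_eta, Fin.mk_one, Fin.reduceFinMk, Fin.isValue]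
      linear_combination (8 + 16 * s + 6 * t + 10 * t * s - 18 * t ^ 2 - 32 * t ^ 2 * s) * h
  · fin_cases j
    · simp only [A6, B6, E6, Matrix.mul_apply, Fin.sum_univ_six, Matrix.of_apply, Matrix.cons_val, Matrix.transpose_apply, Fin.zero_eta, Fin.mk_one, Fin.reduceFinMk, Fin.isValue]
      linear_combination (-32 - 40 * s - 9 * t - 5 * t * s - 35 * t ^ 2 - 21 * t ^ 2 * s) * h
    · simp only [A6, B6, E6, Matrix.mul_apply, Fin.sum_univ_six, Matrix.of_apply, Matrix.cons_val, Matrix.transpose_apply, Fin.zero_eta, Fin.mk_one, Fin.reduceFinMk, Fin.isValue]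
      linear_combination (-32 - 40 * s - 9 * t - 5 * t * s - 35 * t ^ 2 - 21 * t ^ 2 * s) * h
    · simp only [A6, B6, E6, Matrix.mul_apply, Fin.sum_univ_six, Matrix.of_apply, Matrix.cons_val, Matrix.transpose_apply, Fin.zero_eta, Fin.mk_one, Fin.reduceFinMk, Fin.isValue]
      linear_combination (24 + 40 * s + 4 * t + 5 * t * s + 14 * t ^ 2 + 21 * t ^ 2 * s) * h
    · simp only [A6, B6, E6, Matrix.mul_apply, Fin.sum_univ_six, Matrix.of_apply, Matrix.cons_val, Matrix.transpose_apply, Fin.zero_eta, Fin.mk_one, Fin.reduceFinMk, Fin.isValue]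
      linear_combination (24 + 40 * s + 4 * t + 5 * t * s + 14 * t ^ 2 + 21 * t ^ 2 * s) * h
    · simp only [A6, B6, E6, Matrix.mul_apply, Fin.sum_univ_six, Matrix.of_apply, Matrix.cons_val, Matrix.transpose_apply, Fin.zero_eta, Fin.mk_one, Fin.reduceFinMk, Fin.isValue]
      linear_combination (12 + 22 * s + 18 * t + 32 * t * s) * h
    · simp only [A6, B6, E6, Matrix.mul_apply, Fin.sum_univ_six, Matrix.of_apply, Matrix.cons_val, Matrix.transpose_apply, Fin.zero_eta, Fin.mk_one, Fin.reduceFinMk, Fin.isValue]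
      linear_combination (8 + 16 * s + 6 * t + 10 * t * s - 18 * t ^ 2 - 32 * t ^ 2 * s) * h
  · fin_cases j
    · simp only [A6, B6, E6, Matrix.mul_apply, Fin.sum_univ_six, Matrix.of_apply, Matrix.cons_val, Matrix.transpose_apply, Fin.zero_eta, Fin.mk_one, Fin.reduceFinMk, Fin.isValue]
      linear_combination (6 + 44 * s) * h
    · simp only [A6, B6, E6, Matrix.mul_apply, Fin.sum_univ_six, Matrix.of_apply, Matrix.cons_val, Matrix.transpose_apply, Fin.zero_eta, Fin.mk_one, Fin.reduceFinMk, Fin.isValue]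
      linear_combination (6 + 44 * s) * h
    · simp only [A6, B6, E6, Matrix.mul_apply, Fin.sum_univ_six, Matrix.of_apply, Matrix.cons_val, Matrix.transpose_apply, Fin.zero_eta, Fin.mk_one, Fin.reduceFinMk, Fin.isValue]
      linear_combination (6 - 44 * s) * h
    · simp only [A6, B6, E6, Matrix.mul_apply, Fin.sum_univ_six, Matrix.of_apply, Matrix.cons_val, Matrix.transpose_apply, Fin.zero_eta, Fin.mk_one, Fin.reduceFinMk, Fin.isValue]
      linear_combination (6 - 44 * s) * h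
    · simp only [A6, B6, E6, Matrix.mul_apply, Fin.sum_univ_six, Matrix.of_apply, Matrix.cons_val, Matrix.transpose_apply, Fin.zero_eta, Fin.mk_one, Fin.reduceFinMk, Fin.isValue]
      linear_combination (10 - 22 * s + 14 * t - 32 * t * s) * h
    · simp only [A6, B6, E6, Matrix.mul_apply, Fin.sum_univ_six, Matrix.of_apply, Matrix.cons_val, Matrix.transpose_apply, Fin.zero_eta, Fin.mk_one, Fin.reduceFinMk, Fin.isValue]
      linear_combination (8 - 16 * s + 4 * t - 10 * t * s - 14 * t ^ 2 + 32 * t ^ 2 * s) * h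
  · fin_cases j
    · simp only [A6, B6, E6, Matrix.mul_apply, Fin.sum_univ_six, Matrix.of_apply, Matrix.cons_val, Matrix.transpose_apply, Fin.zero_eta, Fin.mk_one, Fin.reduceFinMk, Fin.isValue]
      linear_combination (18 + 32 * s) * h
    · simp only [A6, B6, E6, Matrix.mul_apply, Fin.sum_univ_six, Matrix.of_apply, Matrix.cons_val, Matrix.transpose_apply, Fin.zero_eta, Fin.mk_one, Fin.reduceFinMk, Fin.isValue]
      linear_combination (18 + 32 * s) * h
    · simp only [A6, B6, E6, Matrix.mul_apply, Fin.sum_univ_six, Matrix.of_apply, Matrix.cons_val, Matrix.transpose_apply, Fin.zero_eta, Fin.mk_one, Fin.reduceFinMk, Fin.isValue]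
      linear_combination (-18 - 32 * s) * h
    · simp only [A6, B6, E6, Matrix.mul_apply, Fin.sum_univ_six, Matrix.of_apply, Matrix.cons_val, Matrix.transpose_apply, Fin.zero_eta, Fin.mk_one, Fin.reduceFinMk, Fin.isValue]
      linear_combination (-18 - 32 * s) * h
    · simp only [A6, B6, E6, Matrix.mul_apply, Fin.sum_univ_six, Matrix.of_apply, Matrix.cons_val, Matrix.transpose_apply, Fin.zero_eta, Fin.mk_one, Fin.reduceFinMk, Fin.isValue]
      linear_combination (-12 - 22 * s - 18 * t - 32 * t * s) * h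
    · simp only [A6, B6, E6, Matrix.mul_apply, Fin.sum_univ_six, Matrix.of_apply, Matrix.cons_val, Matrix.transpose_apply, Fin.zero_eta, Fin.mk_one, Fin.reduceFinMk, Fin.isValue]
      linear_combination (-8 - 16 * s - 6 * t - 10 * t * s + 18 * t ^ 2 + 32 * t ^ 2 * s) * h

/-- The form L. -/
def L4 (t s : R) : Matrix (Fin 4) (Fin 4) R :=
  !![s ^ 2 + s + 3 + t + t ^ 2, s ^ 2 + s + 2 + t + t ^ 2, -s ^ 2 - 2 - t ^ 2, -s ^ 2 - 2 - t ^ 2;
    s ^ 2 + s + 2 + t + t ^ 2, s ^ 2 + s + 3 + t + t ^ 2, -s ^ 2 - 2 - t ^ 2, -s ^ 2 - 2 - t ^ 2;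
    -s ^ 2 - 2 - t ^ 2, -s ^ 2 - 2 - t ^ 2, s ^ 2 - s + 3 - t + t ^ 2, s ^ 2 - s + 2 - t + t ^ 2;
    -s ^ 2 - 2 - t ^ 2, -s ^ 2 - 2 - t ^ 2, s ^ 2 - s + 2 - t + t ^ 2, s ^ 2 - s + 3 - t + t ^ 2]

/-- The inverse of L. -/
def L4inv (t s : R) : Matrix (Fin 4) (Fin 4) R :=
  !![s ^ 2 - s + 3 - t + t ^ 2, s ^ 2 - s + 2 - t + t ^ 2, s ^ 2 + 2 + t ^ 2, s ^ 2 + 2 + t ^ 2;
    s ^ 2 - s + 2 - t + t ^ 2, s ^ 2 - s + 3 - t + t ^ 2, s ^ 2 + 2 + t ^ 2, s ^ 2 + 2 + t ^ 2;
    s ^ 2 + 2 + t ^ 2, s ^ 2 + 2 + t ^ 2, s ^ 2 + s + 3 + t + t ^ 2, s ^ 2 + s + 2 + t + t ^ 2;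
    s ^ 2 + 2 + t ^ 2, s ^ 2 + 2 + t ^ 2, s ^ 2 + s + 2 + t + t ^ 2, s ^ 2 + s + 3 + t + t ^ 2]

/-- The identity as a literal. -/
def E4 (R : Type*) [CommRing R] : Matrix (Fin 4) (Fin 4) R :=
  !![1, 0, 0, 0;
    0, 1, 0, 0;
    0, 0, 1, 0;
    0, 0, 0, 1]

theorem E4_eq : E4 R = 1 := by
  ext i j
  fin_cases i <;> fin_cases j <;> simp [E4]

theorem mul_LLinv (t s : R) (h : t * s = 1) : L4 t s * L4inv t s = E4 R := by
  ext i j
  fin_cases i
  · fin_cases j
    · simp only [L4, L4inv, E4, Matrix.mul_apply, Fin.sum_univ_four, Matrix.of_apply, Matrix.cons_val, Matrix.transpose_apply, Fin.zero_eta, Fin.mk_one, Fin.reduceFinMk, Fin.isValue]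
      linear_combination (-4) * h
    · simp only [L4, L4inv, E4, Matrix.mul_apply, Fin.sum_univ_four, Matrix.of_apply, Matrix.cons_val, Matrix.transpose_apply, Fin.zero_eta, Fin.mk_one, Fin.reduceFinMk, Fin.isValue]
      linear_combination (-4) * h
    · simp only [L4, L4inv, E4, Matrix.mul_apply, Fin.sum_univ_four, Matrix.of_apply, Matrix.cons_val, Matrix.transpose_apply, Fin.zero_eta, Fin.mk_one, Fin.reduceFinMk, Fin.isValue]
      linear_combination (0) * h
    · simp only [L4, L4inv, E4, Matrix.mul_apply, Fin.sum_univ_four, Matrix.of_apply, Matrix.cons_val, Matrix.transpose_apply, Fin.zero_eta, Fin.mk_one, Fin.reduceFinMk, Fin.isValue]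
      linear_combination (0) * h
  · fin_cases j
    · simp only [L4, L4inv, E4, Matrix.mul_apply, Fin.sum_univ_four, Matrix.of_apply, Matrix.cons_val, Matrix.transpose_apply, Fin.zero_eta, Fin.mk_one, Fin.reduceFinMk, Fin.isValue]
      linear_combination (-4) * h
    · simp only [L4, L4inv, E4, Matrix.mul_apply, Fin.sum_univ_four, Matrix.of_apply, Matrix.cons_val, Matrix.transpose_apply, Fin.zero_eta, Fin.mk_one, Fin.reduceFinMk, Fin.isValue]
      linear_combination (-4) * h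
    · simp only [L4, L4inv, E4, Matrix.mul_apply, Fin.sum_univ_four, Matrix.of_apply, Matrix.cons_val, Matrix.transpose_apply, Fin.zero_eta, Fin.mk_one, Fin.reduceFinMk, Fin.isValue]
      linear_combination (0) * h
    · simp only [L4, L4inv, E4, Matrix.mul_apply, Fin.sum_univ_four, Matrix.of_apply, Matrix.cons_val, Matrix.transpose_apply, Fin.zero_eta, Fin.mk_one, Fin.reduceFinMk, Fin.isValue]
      linear_combination (0) * h
  · fin_cases j
    · simp only [L4, L4inv, E4, Matrix.mul_apply, Fin.sum_univ_four, Matrix.of_apply, Matrix.cons_val, Matrix.transpose_apply, Fin.zero_eta, Fin.mk_one, Fin.reduceFinMk, Fin.isValue]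
      linear_combination (0) * h
    · simp only [L4, L4inv, E4, Matrix.mul_apply, Fin.sum_univ_four, Matrix.of_apply, Matrix.cons_val, Matrix.transpose_apply, Fin.zero_eta, Fin.mk_one, Fin.reduceFinMk, Fin.isValue]
      linear_combination (0) * h
    · simp only [L4, L4inv, E4, Matrix.mul_apply, Fin.sum_univ_four, Matrix.of_apply, Matrix.cons_val, Matrix.transpose_apply, Fin.zero_eta, Fin.mk_one, Fin.reduceFinMk, Fin.isValue]
      linear_combination (-4) * h
    · simp only [L4, L4inv, E4, Matrix.mul_apply, Fin.sum_univ_four, Matrix.of_apply, Matrix.cons_val, Matrix.transpose_apply, Fin.zero_eta, Fin.mk_one, Fin.reduceFinMk, Fin.isValue]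
      linear_combination (-4) * h
  · fin_cases j
    · simp only [L4, L4inv, E4, Matrix.mul_apply, Fin.sum_univ_four, Matrix.of_apply, Matrix.cons_val, Matrix.transpose_apply, Fin.zero_eta, Fin.mk_one, Fin.reduceFinMk, Fin.isValue]
      linear_combination (0) * h
    · simp only [L4, L4inv, E4, Matrix.mul_apply, Fin.sum_univ_four, Matrix.of_apply, Matrix.cons_val, Matrix.transpose_apply, Fin.zero_eta, Fin.mk_one, Fin.reduceFinMk, Fin.isValue]
      linear_combination (0) * h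
    · simp only [L4, L4inv, E4, Matrix.mul_apply, Fin.sum_univ_four, Matrix.of_apply, Matrix.cons_val, Matrix.transpose_apply, Fin.zero_eta, Fin.mk_one, Fin.reduceFinMk, Fin.isValue]
      linear_combination (-4) * h
    · simp only [L4, L4inv, E4, Matrix.mul_apply, Fin.sum_univ_four, Matrix.of_apply, Matrix.cons_val, Matrix.transpose_apply, Fin.zero_eta, Fin.mk_one, Fin.reduceFinMk, Fin.isValue]
      linear_combination (-4) * h

/-- An orthonormal basis of L at t = 1. -/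
def R4 : Matrix (Fin 4) (Fin 4) Int :=
  !![1, 1, 1, 0; 1, 1, 0, 1; 2, 1, 1, 1; 1, 2, 1, 1]

/-- The inverse of R4. -/
def R4inv : Matrix (Fin 4) (Fin 4) Int :=
  !![1, 1, 0, -1; 1, 1, -1, 0; -1, -2, 1, 1; -2, -1, 1, 1]

theorem R4_mul : R4 * R4inv = 1 := by decide

theorem R4inv_mul : R4inv * R4 = 1 := by decide

theorem R4_form : R4ᵀ * L4 (1 : Int) 1 * R4 = 1 := by decide

end Pool.Agent.U324.HT
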