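import Mathlib
import Pool.Agent.U324.HT.Alg

/-!
The Hambleton-Teichner form L over Z[t, 1/t] represents no vector of norm one.
-/

set_option autoImplicit false

namespace Pool.Agent.U324.HT

open LaurentPolynomial

theorem coeff_T_mul (k : ℤ) (f : LaurentPolynomial ℤ) (n : ℤ) :
    ((T k : LaurentPolynomial ℤ) * f).coeff n = f.coeff (n - k) := by
  have := AddMonoidAlgebra.coeff_single_mul_eq_mul_coeff (R := ℤ) (x := f) (r := 1) (m := k)
    (m₁ := n) (n - k) (fun m' _ => by constructor <;> intro h <;> omega)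
  rw [one_mul] at this
  exact this

theorem coeff_invert_mul_self (f : LaurentPolynomial ℤ) (F : Finset ℤ)
    (hF : f.coeff.support ⊆ F) :
    (invert f * f).coeff 0 = ∑ n ∈ F, (f.coeff n) ^ 2 := by
  classical
  rw [AddMonoidAlgebra.coeff_mul]
  have h1 : ∀ (m : ℤ) (r : ℤ),
      (f.coeff.sum fun m₂ r₂ => if m + m₂ = 0 then r * r₂ else 0) = r * f.coeff (-m) := by
    intro m r
    rw [Finsupp.sum]
    have : ∀ m₂ ∈ f.coeff.support, (if m + m₂ = 0 then r * f.coeff m₂ else 0)
        = if m₂ = -m then r * f.coeff (-m) else 0 := by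
      intro m₂ _
      by_cases h : m₂ = -m
      · subst h; simp
      · rw [if_neg h, if_neg (by omega)]
    rw [Finset.sum_congr rfl this, Finset.sum_ite_eq']
    by_cases h : -m ∈ f.coeff.support
    · rw [if_pos h]
    · rw [if_neg h]
      rw [Finsupp.notMem_support_iff] at h
      rw [h, mul_zero]
  have h2 : ((invert f).coeff.sum fun m₁ r₁ => f.coeff.sum fun m₂ r₂ =>
      if m₁ + m₂ = 0 then r₁ * r₂ else 0)
      = ∑ m ∈ (invert f).coeff.support, (f.coeff (-m)) ^ 2 := by
    rw [Finsupp.sum]
    refine Finset.sum_congr rfl fun m _ => ?_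
    rw [h1, invert_apply]
    ring
  rw [h2]
  have h3 : ∑ m ∈ (invert f).coeff.support, (f.coeff (-m)) ^ 2
      = ∑ n ∈ f.coeff.support, (f.coeff n) ^ 2 := by
    refine Finset.sum_nbij' (fun m => -m) (fun m => -m) ?_ ?_ ?_ ?_ ?_
    · intro m hm
      rw [Finsupp.mem_support_iff] at hm ⊢
      rwa [invert_apply] at hm
    · intro m hm
      rw [Finsupp.mem_support_iff] at hm ⊢
      rw [invert_apply, neg_neg]
      exact hm
    · intro m _; simp
    · intro m _; simp
    · intro m _; simp
  rw [h3]
  refine Finset.sum_subset hF fun n _ hn => ?_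
  rw [Finsupp.notMem_support_iff] at hn
  rw [hn]; simp

/-- The combinatorial core. -/
theorem comb (a b c d : ℤ → ℤ) (F₀ F₁ : Finset ℤ)
    (hz : ∀ n ∉ F₀, a n = 0 ∧ b n = 0 ∧ c n = 0 ∧ d n = 0)
    (hS : ∀ F : Finset ℤ, F₁ ⊆ F → ∑ n ∈ F,
      ((a n + b n + ((a (n - 1) + b (n - 1)) + (a (n + 1) + b (n + 1)))
          - ((c (n - 1) + d (n - 1)) + (c (n + 1) + d (n + 1)))) ^ 2
        + ((a (n - 1) + b (n - 1)) + (a (n + 1) + b (n + 1)) + (c n + d n)
          - ((c (n - 1) + d (n - 1)) + (c (n + 1) + d (n + 1)))) ^ 2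
        + (a n - b n) ^ 2 + (c n - d n) ^ 2) = 2) : False := by
  classical
  have hsq : ∀ u v : ℤ, ¬ Even (u + v) → 1 ≤ u ^ 2 + v ^ 2 := by
    intro u v h
    by_contra hc
    have hu : u = 0 := by nlinarith [sq_nonneg u, sq_nonneg v]
    have hv : v = 0 := by nlinarith [sq_nonneg u, sq_nonneg v]
    subst hu; subst hv
    exact h (by simp)
  have hsq1 : ∀ u : ℤ, ¬ Even u → 1 ≤ u ^ 2 := by
    intro u h
    have := hsq u 0 (by simpa using h)
    simpa using this
  set g : ℤ → ℤ := fun n =>
      ((a n + b n + ((a (n - 1) + b (n - 1)) + (a (n + 1) + b (n + 1)))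
          - ((c (n - 1) + d (n - 1)) + (c (n + 1) + d (n + 1)))) ^ 2
        + ((a (n - 1) + b (n - 1)) + (a (n + 1) + b (n + 1)) + (c n + d n)
          - ((c (n - 1) + d (n - 1)) + (c (n + 1) + d (n + 1)))) ^ 2
        + (a n - b n) ^ 2 + (c n - d n) ^ 2) with hg
  have hg0 : ∀ n, 0 ≤ g n := fun n => by rw [hg]; positivity
  have hge : ∀ n, 2 ≤ g n ∨ Even (a (n - 1) + b (n - 1) - c (n - 1) - d (n - 1)
      + (a (n + 1) + b (n + 1) - c (n + 1) - d (n + 1))) := by
    intro n
    by_cases he : Even (a (n - 1) + b (n - 1) - c (n - 1) - d (n - 1)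
      + (a (n + 1) + b (n + 1) - c (n + 1) - d (n + 1)))
    · exact Or.inr he
    · left
      have e1 := hsq (a n + b n + ((a (n - 1) + b (n - 1)) + (a (n + 1) + b (n + 1)))
          - ((c (n - 1) + d (n - 1)) + (c (n + 1) + d (n + 1)))) (a n - b n) (by
            intro h
            apply he
            rw [Int.even_iff] at h ⊢
            omega)
      have e2 := hsq ((a (n - 1) + b (n - 1)) + (a (n + 1) + b (n + 1)) + (c n + d n)
          - ((c (n - 1) + d (n - 1)) + (c (n + 1) + d (n + 1)))) (c n - d n) (by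
            intro h
            apply he
            rw [Int.even_iff] at h ⊢
            omega)
      rw [hg]
      simp only
      linarith
  set O : Finset ℤ := F₀.filter (fun n => ¬ Even (a n + b n - c n - d n)) with hO
  have hOn : ∀ n, n ∉ O → Even (a n + b n - c n - d n) := by
    intro n hn
    by_cases hF : n ∈ F₀
    · by_contra h
      exact hn (Finset.mem_filter.2 ⟨hF, h⟩)
    · obtain ⟨h1, h2, h3, h4⟩ := hz n hF
      rw [h1, h2, h3, h4]; simp
  by_cases hne : O.Nonempty
  · set M := O.max' hne with hM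
    set m := O.min' hne with hm
    have hMO : M ∈ O := Finset.max'_mem _ _
    have hmO : m ∈ O := Finset.min'_mem _ _
    have hM2 : M + 2 ∉ O := fun h => by
      have := Finset.le_max' O _ h
      omega
    have hm2 : m - 2 ∉ O := fun h => by
      have := Finset.min'_le O _ h
      omega
    have hmM : m ≤ M := Finset.min'_le O _ hMO
    have k1 : 2 ≤ g (M + 1) := by
      rcases hge (M + 1) with h | h
      · exact h
      · exfalso
        have e1 := hOn _ hM2
        have e2 := (Finset.mem_filter.1 hMO).2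
        apply e2
        have e3 : M + 1 - 1 = M := by ring
        have e4 : M + 1 + 1 = M + 2 := by ring
        rw [e3, e4] at h
        rw [Int.even_iff] at *
        omega
    have k2 : 2 ≤ g (m - 1) := by
      rcases hge (m - 1) with h | h
      · exact h
      · exfalso
        have e1 := hOn _ hm2
        have e2 := (Finset.mem_filter.1 hmO).2
        apply e2
        have e3 : m - 1 + 1 = m := by ring
        have e4 : m - 1 - 1 = m - 2 := by ring
        rw [e3, e4] at h
        rw [Int.even_iff] at *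
        omega
    have h2 := hS (F₁ ∪ {M + 1, m - 1}) Finset.subset_union_left
    have h3 : ∑ n ∈ ({M + 1, m - 1} : Finset ℤ), g n ≤ ∑ n ∈ F₁ ∪ {M + 1, m - 1}, g n :=
      Finset.sum_le_sum_of_subset_of_nonneg Finset.subset_union_right (fun n _ _ => hg0 n)
    rw [Finset.sum_pair (by omega)] at h3
    have h4 : ∑ n ∈ F₁ ∪ {M + 1, m - 1}, g n = 2 := h2
    omega
  · have hall : ∀ n, Even (a n + b n - c n - d n) := fun n =>
      hOn n (fun h => hne ⟨n, h⟩)
    by_cases hp : ∃ n, ¬ Even (a n + b n)
    · obtain ⟨n, hn⟩ := hp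
      have e0 := hall n
      have e1 := hall (n - 1)
      have e2 := hall (n + 1)
      have k : 4 ≤ g n := by
        have s1 := hsq1 (a n + b n + ((a (n - 1) + b (n - 1)) + (a (n + 1) + b (n + 1)))
          - ((c (n - 1) + d (n - 1)) + (c (n + 1) + d (n + 1)))) (by
            intro h
            apply hn
            rw [Int.even_iff] at *
            omega)
        have s2 := hsq1 ((a (n - 1) + b (n - 1)) + (a (n + 1) + b (n + 1)) + (c n + d n)
          - ((c (n - 1) + d (n - 1)) + (c (n + 1) + d (n + 1)))) (by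
            intro h
            apply hn
            rw [Int.even_iff] at *
            omega)
        have s3 := hsq1 (a n - b n) (by
            intro h
            apply hn
            rw [Int.even_iff] at *
            omega)
        have s4 := hsq1 (c n - d n) (by
            intro h
            apply hn
            rw [Int.even_iff] at *
            omega)
        rw [hg]
        simp only
        linarith
      have h2 : ∑ n ∈ F₁ ∪ {n}, g n = 2 := hS (F₁ ∪ {n}) Finset.subset_union_left
      have h3 : ∑ n ∈ ({n} : Finset ℤ), g n ≤ ∑ n ∈ F₁ ∪ {n}, g n :=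
        Finset.sum_le_sum_of_subset_of_nonneg Finset.subset_union_right (fun n _ _ => hg0 n)
      rw [Finset.sum_singleton] at h3
      omega
    · push Not at hp
      have h4 : ∀ n, (4 : ℤ) ∣ g n := by
        intro n
        have e0 := hall n
        have e1 := hall (n - 1)
        have e2 := hall (n + 1)
        have e3 := hp n
        have hsq4 : ∀ u : ℤ, Even u → (4 : ℤ) ∣ u ^ 2 := by
          intro u hu
          obtain ⟨v, hv⟩ := hu
          exact ⟨v ^ 2, by rw [hv]; ring⟩
        rw [hg]
        refine dvd_add (dvd_add (dvd_add (hsq4 _ ?_) (hsq4 _ ?_)) (hsq4 _ ?_)) (hsq4 _ ?_)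
        all_goals
          rw [Int.even_iff] at *
          omega
      have h2 : ∑ n ∈ F₁, g n = 2 := hS F₁ subset_rfl
      have h3 : (4 : ℤ) ∣ ∑ n ∈ F₁, g n := Finset.dvd_sum fun n _ => h4 n
      rw [h2] at h3
      omega

/-- The form L represents no vector of norm one. -/
theorem no_unit_vector (y : Fin 4 → LaurentPolynomial ℤ) :
    ∑ i, ∑ j, invert (y i) * L4 (T 1 : LaurentPolynomial ℤ) (T (-1)) i j * y j ≠ 1 := by
  classical
  intro hy
  have hts : (T 1 : LaurentPolynomial ℤ) * T (-1) = 1 := by
    rw [← T_add]; simp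
  have hit : invert (T 1 : LaurentPolynomial ℤ) = T (-1) := by simp
  have his : invert (T (-1) : LaurentPolynomial ℤ) = T 1 := by simp
  set t : LaurentPolynomial ℤ := T 1 with ht
  set s : LaurentPolynomial ℤ := T (-1) with hs
  set z1 := (1 + (t + s)) * (y 0 + y 1) - (t + s) * (y 2 + y 3) with hz1
  set z2 := (t + s) * (y 0 + y 1) + (1 - (t + s)) * (y 2 + y 3) with hz2
  set z3 := y 0 - y 1 with hz3
  set z4 := y 2 - y 3 with hz4
  have key : invert z1 * z1 + invert z2 * z2 + invert z3 * z3 + invert z4 * z4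
      = 2 * ∑ i, ∑ j, invert (y i) * L4 t s i j * y j := by
    simp only [Fin.sum_univ_four, L4, Matrix.of_apply, Matrix.cons_val]
    rw [hz1, hz2, hz3, hz4]
    simp only [map_add, map_sub, map_mul, map_one, hit, his]
    linear_combination (4 * (invert (y 0) + invert (y 1) - invert (y 2) - invert (y 3))
      * (y 0 + y 1 - y 2 - y 3)) * hts
  rw [hy, mul_one] at key
  have key0 := congrArg (fun f : LaurentPolynomial ℤ => f.coeff 0) key
  simp only [AddMonoidAlgebra.coeff_add, Finsupp.coe_add, Pi.add_apply] at key0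
  have h20 : (2 : LaurentPolynomial ℤ).coeff 0 = 2 := by
    rw [AddMonoidAlgebra.coeff_ofNat]; simp
  rw [h20] at key0
  refine comb (fun n => (y 0).coeff n) (fun n => (y 1).coeff n) (fun n => (y 2).coeff n)
    (fun n => (y 3).coeff n)
    ((y 0).coeff.support ∪ (y 1).coeff.support ∪ (y 2).coeff.support ∪ (y 3).coeff.support)
    (z1.coeff.support ∪ z2.coeff.support ∪ z3.coeff.support ∪ z4.coeff.support) ?_ ?_
  · intro n hn
    simp only [Finset.mem_union, not_or, Finsupp.notMem_support_iff] at hn
    exact ⟨hn.1.1.1, hn.1.1.2, hn.1.2, hn.2⟩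
  · intro F hF
    have s1 : z1.coeff.support ⊆ F := fun n hn => hF (by simp only [Finset.mem_union]; tauto)
    have s2 : z2.coeff.support ⊆ F := fun n hn => hF (by simp only [Finset.mem_union]; tauto)
    have s3 : z3.coeff.support ⊆ F := fun n hn => hF (by simp only [Finset.mem_union]; tauto)
    have s4 : z4.coeff.support ⊆ F := fun n hn => hF (by simp only [Finset.mem_union]; tauto)
    rw [coeff_invert_mul_self _ F s1, coeff_invert_mul_self _ F s2, coeff_invert_mul_self _ F s3,
      coeff_invert_mul_self _ F s4, ← Finset.sum_add_distrib, ← Finset.sum_add_distrib,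
      ← Finset.sum_add_distrib] at key0
    rw [← key0]
    refine Finset.sum_congr rfl fun n _ => ?_
    have c1 : ∀ f : LaurentPolynomial ℤ, (t * f).coeff n = f.coeff (n - 1) := fun f =>
      coeff_T_mul 1 f n
    have c2 : ∀ f : LaurentPolynomial ℤ, (s * f).coeff n = f.coeff (n + 1) := fun f => by
      rw [hs, coeff_T_mul]; congr 1
    have f1 : z1.coeff n = (y 0).coeff n + (y 1).coeff n + (((y 0).coeff (n - 1)
        + (y 1).coeff (n - 1)) + ((y 0).coeff (n + 1) + (y 1).coeff (n + 1)))
        - (((y 2).coeff (n - 1) + (y 3).coeff (n - 1))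
        + ((y 2).coeff (n + 1) + (y 3).coeff (n + 1))) := by
      have : z1 = (y 0 + y 1) + (t * (y 0 + y 1) + s * (y 0 + y 1)) - (t * (y 2 + y 3)
        + s * (y 2 + y 3)) := by rw [hz1]; ring
      rw [this]
      simp only [AddMonoidAlgebra.coeff_add, AddMonoidAlgebra.coeff_sub, Finsupp.coe_add,
        Finsupp.coe_sub, Pi.add_apply, Pi.sub_apply, c1, c2]
    have f2 : z2.coeff n = ((y 0).coeff (n - 1)
        + (y 1).coeff (n - 1)) + ((y 0).coeff (n + 1) + (y 1).coeff (n + 1))
        + ((y 2).coeff n + (y 3).coeff n)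
        - (((y 2).coeff (n - 1) + (y 3).coeff (n - 1))
        + ((y 2).coeff (n + 1) + (y 3).coeff (n + 1))) := by
      have : z2 = (t * (y 0 + y 1) + s * (y 0 + y 1)) + (y 2 + y 3) - (t * (y 2 + y 3)
        + s * (y 2 + y 3)) := by rw [hz2]; ring
      rw [this]
      simp only [AddMonoidAlgebra.coeff_add, AddMonoidAlgebra.coeff_sub, Finsupp.coe_add,
        Finsupp.coe_sub, Pi.add_apply, Pi.sub_apply, c1, c2]
    have f3 : z3.coeff n = (y 0).coeff n - (y 1).coeff n := by
      rw [hz3, AddMonoidAlgebra.coeff_sub]; rfl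
    have f4 : z4.coeff n = (y 2).coeff n - (y 3).coeff n := by
      rw [hz4, AddMonoidAlgebra.coeff_sub]; rfl
    rw [f1, f2, f3, f4]

end Pool.Agent.U324.HT
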